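import Pool.Agent.STR.Final
import Pool.Agent.STR.P_LOW

/-!
# The non-clairvoyant competitive ratio for average stretch is of order `log P`

For every `ε > 0` there is one deterministic non-clairvoyant algorithm of speed `1 + ε` (it knows
neither `P` nor a bound for the sizes) whose total stretch is, on every instance with size ratio at
most `P`, at most `C (1 + log P)` times the total stretch of every feasible schedule of speed `1`;
and no non-clairvoyant algorithm of speed `1 + ε` does better than `c (1 + log P)`.
The model (`Inst`, `Feasible`, `SameInfo`, `NonClair`, `Competitive`) is in `Pool/Agent/STR/Model.lean`.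
-/

set_option autoImplicit false

namespace Pool.Agent.Results.MP_32d942_lc.ThetaLogP

open STR

/-- For every `ε > 0` the best competitive ratio `c(P)` of a non-clairvoyant `(1+ε)`-speed algorithm
for total stretch on one machine satisfies `c (1 + log P) ≤ c(P) ≤ C (1 + log P)`. -/
theorem result (ε : ℝ) (hε : 0 < ε) : ∃ c C : ℝ, 0 < c ∧
    (∃ A : Inst → ℕ → ℝ → ℝ, NonClair (1 + ε) A ∧
      ∀ P : ℝ, 1 ≤ P → Competitive P (C * (1 + Real.log P)) A) ∧
    (∀ (A : Inst → ℕ → ℝ → ℝ) (P ρ : ℝ), NonClair (1 + ε) A → 1 ≤ P → Competitive P ρ A →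
      c * (1 + Real.log P) ≤ ρ) := by
  obtain ⟨C, A, hA, h⟩ := STR.final ε hε
  have hs : 0 < 1 + ε := by linarith
  refine ⟨1 / (4 * (1 + ε)), C, by positivity, ⟨A, hA, fun P _ I hP => h I P hP⟩, ?_⟩
  intro B P ρ hB hP hC
  exact p_LOW (1 + ε) hs B hB P ρ hP hC

end Pool.Agent.Results.MP_32d942_lc.ThetaLogP
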